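import Pool.Agent.H49.BZ.Cut

/-!
# The variation of the density with prescribed zeros
-/

set_option autoImplicit false

open MeasureTheory Filter Topology Set

namespace Pool.Agent.H49.BZ

variable {γ : ℕ → ℝ}

theorem nd_up (h0 : ∀ k, 0 < γ k) {u : ℝ} (hu : 1 < u) : nd γ u ≤ 2 / Real.log u := by
  have hl := Real.log_pos hu
  refine (nd_bounds h0 hu).2.trans (div_le_div_of_nonneg_right ?_ hl.le)
  have hs : 0 < √u := Real.sqrt_pos.2 (by linarith)
  have : 0 < (√u)⁻¹ := by positivity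
  linarith

theorem KKm {u x : ℝ} (h : u ≤ x) : KK u ≤ KK x := by
  unfold KK
  refine Nat.floor_mono ?_
  have := Real.sqrt_le_sqrt h
  linarith

theorem lt_KK (h0 : ∀ k, 0 < γ k) {k : ℕ} {u : ℝ} (h : UU γ k ≤ u) : k < KK u := by
  unfold KK
  have h1 := (UU_sq h0 k).trans h
  have h2 : 8 * (k : ℝ) + 9 ≤ √u := Real.le_sqrt_of_sq_le h1
  have h3 : ((k + 1 : ℕ) : ℝ) ≤ (√u - 1) / 8 := by
    push_cast
    linarith
  exact Nat.lt_of_succ_le (Nat.le_floor h3)

/-- the jumps -/
noncomputable def JJ (γ : ℕ → ℝ) (x : ℝ) : ℝ := ∑ k ∈ Finset.range (KK x), if UU γ k ≤ x then 4 / √(UU γ k) else 0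

/-- a bound for the variation -/
noncomputable def VV (γ : ℕ → ℝ) (x : ℝ) : ℝ := 15 * √x + JJ γ x

theorem JJ_eq (h0 : ∀ k, 0 < γ k) {x : ℝ} {n : ℕ} (hn : KK x ≤ n) :
    JJ γ x = ∑ k ∈ Finset.range n, if UU γ k ≤ x then 4 / √(UU γ k) else 0 := by
  unfold JJ
  refine Finset.sum_subset (Finset.range_subset_range.2 hn) fun k _ hk => ?_
  rw [if_neg]
  intro h
  exact hk (Finset.mem_range.2 (lt_KK h0 h))

theorem JJ_mono (h0 : ∀ k, 0 < γ k) : Monotone (JJ γ) := by
  intro u v h
  rw [JJ_eq h0 (KKm h), JJ_eq h0 le_rfl]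
  refine Finset.sum_le_sum fun k _ => ?_
  by_cases h1 : UU γ k ≤ u
  · rw [if_pos h1, if_pos (h1.trans h)]
  · rw [if_neg h1]
    split_ifs
    · positivity
    · exact le_rfl

theorem VV_mono (h0 : ∀ k, 0 < γ k) : Monotone (VV γ) := by
  intro u v h
  have h1 := Real.sqrt_le_sqrt h
  have h2 := JJ_mono h0 h
  unfold VV
  linarith

theorem VV_nonneg (x : ℝ) : 0 ≤ VV γ x := by
  unfold VV JJ
  refine add_nonneg (by positivity) (Finset.sum_nonneg fun k _ => ?_)
  split_ifs
  · positivity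
  · exact le_rfl

theorem VV_le (h0 : ∀ k, 0 < γ k) {x : ℝ} (hx : 1 ≤ x) : VV γ x ≤ 16 * √x := by
  have hs : 1 ≤ √x := Real.one_le_sqrt.2 hx
  have h1 : JJ γ x ≤ ∑ k ∈ Finset.range (KK x), (1 : ℝ) := by
    refine Finset.sum_le_sum fun k _ => ?_
    split_ifs with h
    · have h2 : (9 : ℝ) ≤ √(UU γ k) := by
        refine Real.le_sqrt_of_sq_le (le_trans ?_ (UU_sq h0 k))
        have := Nat.cast_nonneg (α := ℝ) k
        nlinarith
      rw [div_le_one (by linarith)]
      linarith
    · exact zero_le_one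
  rw [Finset.sum_const, Finset.card_range, nsmul_eq_mul, mul_one] at h1
  have h2 : (KK x : ℝ) ≤ (√x - 1) / 8 := Nat.floor_le (by linarith)
  unfold VV
  linarith

theorem inv_sum (n : ℕ) : ∑ k ∈ Finset.range n, 1 / (8 * (k : ℝ) + 9) ^ 2 ≤ 1 / 8 - 1 / (8 * (8 * (n : ℝ) + 1)) := by
  induction n with
  | zero => simp
  | succ n ih =>
    rw [Finset.sum_range_succ]
    refine (add_le_add ih le_rfl).trans ?_
    have hn := Nat.cast_nonneg (α := ℝ) n
    push_cast
    have e : 1 / (8 * (8 * (n : ℝ) + 1)) - 1 / (8 * (8 * ((n : ℝ) + 1) + 1)) = 1 / ((8 * (n : ℝ) + 1) * (8 * n + 9)) := by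
      field_simp
      ring
    have h1 : 1 / (8 * (n : ℝ) + 9) ^ 2 ≤ 1 / ((8 * (n : ℝ) + 1) * (8 * n + 9)) := by
      refine one_div_le_one_div_of_le (by positivity) ?_
      nlinarith
    linarith

/-- the sum of the active ordinates -/
theorem gam_sum (h0 : ∀ k, 0 < γ k) {u : ℝ} (hu : 0 ≤ u) (n : ℕ) :
    ∑ k ∈ Finset.range n, (if UU γ k ≤ u then γ k else 0) ≤ u / 8 := by
  have h1 : ∀ k ∈ Finset.range n, (if UU γ k ≤ u then γ k else 0) ≤ u * (1 / (8 * (k : ℝ) + 9) ^ 2) := by
    intro k _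
    have hk := Nat.cast_nonneg (α := ℝ) k
    split_ifs with h
    · have h2 := (UU_ge h0 k).trans h
      rw [mul_one_div, le_div_iff₀ (by positivity)]
      have h3 : 0 ≤ (8 * (k : ℝ) + 9) ^ 2 := by positivity
      nlinarith
    · positivity
  refine (Finset.sum_le_sum h1).trans ?_
  rw [← Finset.mul_sum]
  have h2 := inv_sum n
  have h3 : 0 < 1 / (8 * (8 * (n : ℝ) + 1)) := by positivity
  have h4 := mul_le_mul_of_nonneg_left (show ∑ k ∈ Finset.range n, 1 / (8 * (k : ℝ) + 9) ^ 2 ≤ 1 / 8 by linarith) hu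
  linarith

section
variable {u v : ℝ}

theorem log_diff (hu : 2 ≤ u) (hv : u ≤ v) : Real.log v - Real.log u ≤ 2 * (√v - √u) / √u := by
  have hu0 : 0 < √u := Real.sqrt_pos.2 (by linarith)
  have hv0 : 0 < √v := Real.sqrt_pos.2 (by linarith)
  have h1 : Real.log (√v) = Real.log v / 2 := Real.log_sqrt (by linarith)
  have h2 : Real.log (√u) = Real.log u / 2 := Real.log_sqrt (by linarith)
  have h3 := Real.log_le_sub_one_of_pos (x := √v / √u) (by positivity)
  rw [Real.log_div hv0.ne' hu0.ne', h1, h2] at h3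
  have e : 2 * (√v - √u) / √u = 2 * (√v / √u - 1) := by
    field_simp
  rw [e]
  linarith

/-- `1 / (√u log u)` -/
theorem g_diff (hu : 2 ≤ u) (hv : u ≤ v) : 0 ≤ 1 / (√u * Real.log u) - 1 / (√v * Real.log v) ∧
    √u / 4 * (1 / (√u * Real.log u) - 1 / (√v * Real.log v)) ≤ 5 / 2 * (√v - √u) := by
  have hu1 : 1 ≤ √u := Real.one_le_sqrt.2 (by linarith)
  have huv : √u ≤ √v := Real.sqrt_le_sqrt hv
  have hv1 : 1 ≤ √v := hu1.trans huv
  have hlu : 1 / 2 ≤ Real.log u := by
    have h1 := Real.log_le_log (by norm_num) hu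
    have h2 := Real.log_two_gt_d9
    linarith
  have hluv : Real.log u ≤ Real.log v := Real.log_le_log (by linarith) hv
  have hlv : 1 / 2 ≤ Real.log v := hlu.trans hluv
  have hld := log_diff hu hv
  set a := √u with ha
  set b := √v with hb
  set l := Real.log u with hl
  set m := Real.log v with hm
  have ha0 : 0 < a := by linarith
  have hb0 : 0 < b := by linarith
  have hl0 : 0 < l := by linarith
  have hm0 : 0 < m := by linarith
  constructor
  · rw [sub_nonneg]
    exact one_div_le_one_div_of_le (by positivity) (mul_le_mul huv hluv hl0.le hb0.le)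
  · have e : a / 4 * (1 / (a * l) - 1 / (b * m)) = (b - a) / (4 * (b * l)) + a * (m - l) / (4 * (b * l * m)) := by
      field_simp
      ring
    rw [e]
    have h1 : (b - a) / (4 * (b * l)) ≤ (b - a) / 2 := by
      refine div_le_div_of_nonneg_left (by linarith) (by norm_num) ?_
      nlinarith
    have h2 : a * (m - l) ≤ 2 * (b - a) := by
      rw [le_div_iff₀ ha0] at hld
      linarith
    have h3 : a * (m - l) / (4 * (b * l * m)) ≤ 2 * (b - a) / 1 := by
      refine div_le_div₀ (by linarith) h2 one_pos ?_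
      have h4 : 1 / 4 ≤ l * m := by nlinarith
      nlinarith
    rw [div_one] at h3
    linarith

theorem cos_diff {g : ℝ} (hg : 0 < g) (hu : 0 < u) (hv : u ≤ v) :
    |Real.cos (g * Real.log v) - Real.cos (g * Real.log u)| ≤ g * (Real.log v - Real.log u) := by
  have h1 : Real.log u ≤ Real.log v := Real.log_le_log hu hv
  have h2 := Real.abs_cos_sub_cos_le (g * Real.log v) (g * Real.log u)
  rw [← mul_sub, abs_of_nonneg (mul_nonneg hg.le (by linarith : 0 ≤ Real.log v - Real.log u))] at h2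
  exact h2

theorem ek_diff (h0 : ∀ k, 0 < γ k) (hu : 2 ≤ u) (hv : u ≤ v) (k : ℕ) : |ek γ k v - ek γ k u| ≤
    (if UU γ k ≤ u then γ k else 0) * (4 * (Real.log v - Real.log u) / √v) +
      (if UU γ k ≤ u then 1 else 0) * (2 * (1 / (√u * Real.log u) - 1 / (√v * Real.log v))) +
      ((if UU γ k ≤ v then 4 / √(UU γ k) else 0) - (if UU γ k ≤ u then 4 / √(UU γ k) else 0)) := by
  have hu1 : 1 ≤ √u := Real.one_le_sqrt.2 (by linarith)
  have huv : √u ≤ √v := Real.sqrt_le_sqrt hv
  have hv1 : 1 ≤ √v := hu1.trans huv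
  have hlu : 1 / 2 ≤ Real.log u := by
    have h1 := Real.log_le_log (by norm_num) hu
    have h2 := Real.log_two_gt_d9
    linarith
  have hluv : Real.log u ≤ Real.log v := Real.log_le_log (by linarith) hv
  have hlv : 1 / 2 ≤ Real.log v := hlu.trans hluv
  have hgv : 1 / (√v * Real.log v) ≤ 2 / √v := by
    rw [div_le_div_iff₀ (by positivity) (by positivity)]
    nlinarith
  have hgv0 : 0 ≤ 1 / (√v * Real.log v) := by positivity
  obtain ⟨hg0, _⟩ := g_diff hu hv
  by_cases h1 : UU γ k ≤ u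
  · have h2 : UU γ k ≤ v := h1.trans hv
    unfold ek
    simp only [if_pos h1, if_pos h2, sub_self, add_zero, one_mul]
    have e : 2 * Real.cos (γ k * Real.log v) / (√v * Real.log v) - 2 * Real.cos (γ k * Real.log u) / (√u * Real.log u) =
        2 * (Real.cos (γ k * Real.log v) - Real.cos (γ k * Real.log u)) * (1 / (√v * Real.log v)) -
          2 * Real.cos (γ k * Real.log u) * (1 / (√u * Real.log u) - 1 / (√v * Real.log v)) := by
      ring
    rw [e]
    refine (abs_sub _ _).trans (add_le_add ?_ ?_)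
    · rw [abs_mul, abs_mul, abs_two, abs_of_nonneg hgv0]
      have h3 := cos_diff (h0 k) (by linarith : 0 < u) hv
      have h4 : 0 ≤ γ k * (Real.log v - Real.log u) := mul_nonneg (h0 k).le (by linarith)
      calc 2 * |Real.cos (γ k * Real.log v) - Real.cos (γ k * Real.log u)| * (1 / (√v * Real.log v))
          ≤ 2 * (γ k * (Real.log v - Real.log u)) * (2 / √v) := by
            refine mul_le_mul (by linarith) hgv hgv0 (by linarith)
        _ = _ := by ring
    · rw [abs_mul, abs_mul, abs_two, abs_of_nonneg hg0]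
      have h3 := Real.abs_cos_le_one (γ k * Real.log u)
      calc 2 * |Real.cos (γ k * Real.log u)| * (1 / (√u * Real.log u) - 1 / (√v * Real.log v))
          ≤ 2 * 1 * (1 / (√u * Real.log u) - 1 / (√v * Real.log v)) :=
            mul_le_mul_of_nonneg_right (by linarith) hg0
        _ = _ := by ring
  · by_cases h2 : UU γ k ≤ v
    · simp only [if_neg h1, if_pos h2, zero_mul, zero_add, sub_zero]
      have h3 : ek γ k u = 0 := by
        unfold ek
        rw [if_neg h1]
      rw [h3, sub_zero]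
      refine (ek_abs k (by linarith)).trans ?_
      have hU := UU_pos γ k
      have hsU : 0 < √(UU γ k) := Real.sqrt_pos.2 hU
      have hUv : √(UU γ k) ≤ √v := Real.sqrt_le_sqrt h2
      rw [div_le_div_iff₀ (by positivity) hsU]
      nlinarith [mul_le_mul hUv hlv (by norm_num) (by linarith)]
    · have h3 : ek γ k u = 0 := by
        unfold ek
        rw [if_neg h1]
      have h4 : ek γ k v = 0 := by
        unfold ek
        rw [if_neg h2]
      simp only [if_neg h1, if_neg h2, zero_mul, sub_self, add_zero, h3, h4, abs_zero, le_refl]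

theorem ek_sum_diff (h0 : ∀ k, 0 < γ k) (hu : 2 ≤ u) (hv : u ≤ v) :
    |∑' k, ek γ k v - ∑' k, ek γ k u| ≤ 7 / 2 * (√v - √u) + (JJ γ v - JJ γ u) := by
  have hu1 : 1 ≤ √u := Real.one_le_sqrt.2 (by linarith)
  have huv : √u ≤ √v := Real.sqrt_le_sqrt hv
  have hv1 : 1 ≤ √v := hu1.trans huv
  obtain ⟨hg0, hg1⟩ := g_diff hu hv
  have hld := log_diff hu hv
  have hld0 : 0 ≤ Real.log v - Real.log u := sub_nonneg.2 (Real.log_le_log (by linarith) hv)
  have e1 : ∑' k, ek γ k u = ∑ k ∈ Finset.range (KK v), ek γ k u := by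
    rw [ek_sum h0]
    refine Finset.sum_subset (Finset.range_subset_range.2 (KKm hv)) fun k _ hk => ek_zero h0 ?_
    rw [Finset.mem_range] at hk
    omega
  rw [ek_sum h0 v, e1, ← Finset.sum_sub_distrib]
  refine (Finset.abs_sum_le_sum_abs _ _).trans ((Finset.sum_le_sum fun k _ => ek_diff h0 hu hv k).trans ?_)
  rw [Finset.sum_add_distrib, Finset.sum_add_distrib, ← Finset.sum_mul, ← Finset.sum_mul, Finset.sum_sub_distrib,
    ← JJ_eq h0 le_rfl, ← JJ_eq h0 (KKm hv)]
  have s1 := gam_sum h0 (by linarith : 0 ≤ u) (KK v)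
  have s2 : ∑ k ∈ Finset.range (KK v), (if UU γ k ≤ u then (1 : ℝ) else 0) ≤ √u / 8 := by
    have h1 : ∑ k ∈ Finset.range (KK v), (if UU γ k ≤ u then (1 : ℝ) else 0) ≤ KK u := by
      rw [Finset.sum_boole]
      have h2 : (Finset.range (KK v)).filter (fun k => UU γ k ≤ u) ⊆ Finset.range (KK u) := by
        intro k hk
        exact Finset.mem_range.2 (lt_KK h0 (Finset.mem_filter.1 hk).2)
      have h3 := Finset.card_le_card h2
      rw [Finset.card_range] at h3
      exact_mod_cast h3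
    have h2 : (KK u : ℝ) ≤ (√u - 1) / 8 := Nat.floor_le (by linarith)
    linarith
  have a1 : (∑ k ∈ Finset.range (KK v), (if UU γ k ≤ u then γ k else 0)) * (4 * (Real.log v - Real.log u) / √v) ≤
      √v - √u := by
    have h1 : 0 ≤ 4 * (Real.log v - Real.log u) / √v := by positivity
    refine (mul_le_mul_of_nonneg_right s1 h1).trans ?_
    have hsu : √u * √u = u := Real.mul_self_sqrt (by linarith)
    rw [le_div_iff₀ (by linarith)] at hld
    rw [mul_div_assoc', div_le_iff₀ (by linarith)]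
    calc u / 8 * (4 * (Real.log v - Real.log u)) = √u * √u / 8 * (4 * (Real.log v - Real.log u)) := by rw [hsu]
      _ = √u * ((Real.log v - Real.log u) * √u) / 2 := by ring
      _ ≤ √u * (2 * (√v - √u)) / 2 := by
        have := mul_le_mul_of_nonneg_left hld (by linarith : 0 ≤ √u)
        linarith
      _ ≤ (√v - √u) * √v := by nlinarith
  have a2 : (∑ k ∈ Finset.range (KK v), (if UU γ k ≤ u then (1 : ℝ) else 0)) *
      (2 * (1 / (√u * Real.log u) - 1 / (√v * Real.log v))) ≤ 5 / 2 * (√v - √u) := by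
    refine (mul_le_mul_of_nonneg_right s2 (by linarith)).trans ?_
    refine le_trans (le_of_eq ?_) hg1
    ring
  linarith

/-- the variation of the density -/
theorem nd_var (h0 : ∀ k, 0 < γ k) (hu : 2 ≤ u) (hv : u ≤ v) : |nd γ u - nd γ v| ≤ VV γ v - VV γ u := by
  have hu1 : 1 ≤ √u := Real.one_le_sqrt.2 (by linarith)
  have huv : √u ≤ √v := Real.sqrt_le_sqrt hv
  have hv1 : 1 ≤ √v := hu1.trans huv
  have hlu : 1 / 2 ≤ Real.log u := by
    have h1 := Real.log_le_log (by norm_num) hu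
    have h2 := Real.log_two_gt_d9
    linarith
  have hluv : Real.log u ≤ Real.log v := Real.log_le_log (by linarith) hv
  have hlv : 1 / 2 ≤ Real.log v := hlu.trans hluv
  have hld := log_diff hu hv
  have h1 := ek_sum_diff h0 hu hv
  have hld2 : Real.log v - Real.log u ≤ 2 * (√v - √u) := by
    refine hld.trans ?_
    rw [div_le_iff₀ (by linarith)]
    nlinarith
  unfold nd VV
  rw [main_eq (by linarith : 1 < u), main_eq (by linarith : 1 < v)]
  set a := √u with ha
  set b := √v with hb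
  set l := Real.log u with hl
  set m := Real.log v with hm
  have hl0 : 0 < l := by linarith
  have hm0 : 0 < m := by linarith
  have ha1 : a⁻¹ ≤ 1 := inv_le_one_of_one_le₀ hu1
  have hb1 : b⁻¹ ≤ a⁻¹ := inv_anti₀ (by linarith) huv
  have hb0 : 0 < b⁻¹ := by positivity
  have hab : a⁻¹ - b⁻¹ ≤ b - a := by
    have e : a⁻¹ - b⁻¹ = (b - a) / (a * b) := by
      field_simp
    rw [e]
    refine div_le_self (by linarith) ?_
    nlinarith
  set y := a⁻¹ with hy
  set z := b⁻¹ with hz
  have e : (1 - y) * (1 + y / 2) / l - (1 - z) * (1 + z / 2) / m =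
      ((1 - y) * (1 + y / 2) - (1 - z) * (1 + z / 2)) / l + (1 - z) * (1 + z / 2) * ((m - l) / (l * m)) := by
    field_simp
    ring
  have p1 : |((1 - y) * (1 + y / 2) - (1 - z) * (1 + z / 2)) / l| ≤ 3 * (b - a) := by
    rw [abs_div, abs_of_pos hl0, div_le_iff₀ hl0]
    have e2 : (1 - y) * (1 + y / 2) - (1 - z) * (1 + z / 2) = -((y - z) * (1 / 2 + (y + z) / 2)) := by ring
    rw [e2, abs_neg, abs_of_nonneg (mul_nonneg (by linarith) (by linarith))]
    have h3 : (y - z) * (1 / 2 + (y + z) / 2) ≤ (b - a) * (3 / 2) := mul_le_mul hab (by linarith) (by linarith) (by linarith)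
    nlinarith
  have p2 : |(1 - z) * (1 + z / 2) * ((m - l) / (l * m))| ≤ 8 * (b - a) := by
    have h3 : 0 ≤ (m - l) / (l * m) := div_nonneg (by linarith) (by positivity)
    have h4 : 0 ≤ (1 - z) * (1 + z / 2) := mul_nonneg (by linarith) (by linarith)
    rw [abs_of_nonneg (mul_nonneg h4 h3)]
    have h5 : (1 - z) * (1 + z / 2) ≤ 1 := by nlinarith
    have h6 : (m - l) / (l * m) ≤ 4 * (m - l) := by
      rw [div_le_iff₀ (by positivity)]
      have h7 : 1 / 4 ≤ l * m := by nlinarith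
      nlinarith
    calc (1 - z) * (1 + z / 2) * ((m - l) / (l * m)) ≤ 1 * (4 * (m - l)) := mul_le_mul h5 h6 h3 (by norm_num)
      _ ≤ 8 * (b - a) := by linarith
  have p3 : |(1 - y) * (1 + y / 2) / l - (1 - z) * (1 + z / 2) / m| ≤ 11 * (b - a) := by
    rw [e]
    refine (abs_add_le _ _).trans ?_
    linarith
  have e3 : (1 - y) * (1 + y / 2) / l - ∑' k, ek γ k u - ((1 - z) * (1 + z / 2) / m - ∑' k, ek γ k v) =
      ((1 - y) * (1 + y / 2) / l - (1 - z) * (1 + z / 2) / m) + (∑' k, ek γ k v - ∑' k, ek γ k u) := by ring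
  rw [e3]
  refine (abs_add_le _ _).trans ?_
  linarith

end

end Pool.Agent.H49.BZ
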