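import Pool.Agent.H49.BZ.Core

/-!
# The zeta function of a given system with small discrepancies for the density with prescribed zeros
-/

set_option autoImplicit false

open MeasureTheory Filter Topology Set Complex

namespace Pool.Agent.H49.BZ

open Pool.Agent.H49.BP (Tz Tz_eq Tz_deriv Tz_exp gint euler pc summable_q qs_norm em AA AA_meas)

section
variable [Dens]

/-- the integrals of the counting error converge to the right of `1 / 3` -/
def SmallErr (q : ℕ → ℝ) : Prop := ∀ σ : ℝ, 1 / 3 < σ →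
  IntegrableOn (fun x : ℝ => |(pc q x : ℝ) - MM x| * x ^ (-σ - 1)) (Ioi 1)

theorem D_norm (q : ℕ → ℝ) (x : ℝ) : ‖AA q 0 x - BB 0 x‖ = |(pc q x : ℝ) - MM x| := by
  have e0 : ∀ u : ℝ, em 0 u = 1 := by
    intro u
    unfold BP.em
    simp
  have e1 : AA q 0 x = ((pc q x : ℝ) : ℂ) := by
    unfold AA
    simp [e0]
  have e2 : BB 0 x = ((MM x : ℝ) : ℂ) := by
    unfold BB MM
    simp only [e0, one_mul]
    exact intervalIntegral.integral_ofReal
  rw [e1, e2, ← Complex.ofReal_sub, Complex.norm_real, Real.norm_eq_abs]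

theorem D_meas {q : ℕ → ℝ} (hq : StrictMono q) (hg : ∀ j : ℕ, (j : ℝ) + 1 ≤ q j) :
    AEStronglyMeasurable (fun x => AA q 0 x - BB 0 x) (volume.restrict (Ioi 1)) := by
  refine AEStronglyMeasurable.sub (AA_meas hq hg 0).aestronglyMeasurable ?_
  have hBc : ContinuousOn (BB 0) (Ioi 1) := (BB_cont 0).mono fun x hx => by
    have h : (1 : ℝ) < x := hx
    exact h.le
  exact hBc.aestronglyMeasurable measurableSet_Ioi

omit [Dens] in
theorem cpow_meas (w : ℂ) : AEStronglyMeasurable (fun x : ℝ => (x : ℂ) ^ (-w - 1)) (volume.restrict (Ioi 1)) := by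
  refine ContinuousOn.aestronglyMeasurable ?_ measurableSet_Ioi
  intro x hx
  have hx1 : (1 : ℝ) < x := hx
  have h : ContinuousAt (fun x : ℝ => (x : ℂ) ^ (-w - 1)) x :=
    ContinuousAt.cpow Complex.continuous_ofReal.continuousAt continuousAt_const (Or.inl (by simpa using by linarith))
  exact h.continuousWithinAt

/-- continuation to the half-plane `Re w > 1 / 3` -/
theorem FF_third {q : ℕ → ℝ} (hq : StrictMono q) (hg : ∀ j : ℕ, (j : ℝ) + 1 ≤ q j) (hI : SmallErr q) :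
    DifferentiableOn ℂ (FF q 0) {w | 1 / 3 < w.re} := by
  intro w hw
  have hw' : 1 / 3 < w.re := hw
  set r : ℝ := (w.re - 1 / 3) / 3 with hr
  have hr0 : 0 < r := by rw [hr]; linarith
  have hmem : Metric.ball w r ∈ 𝓝 w := Metric.ball_mem_nhds w hr0
  have hre : ∀ z ∈ Metric.ball w r, w.re - r ≤ z.re := by
    intro z hz
    rw [Metric.mem_ball, dist_eq_norm] at hz
    have h1 := Complex.abs_re_le_norm (z - w)
    rw [Complex.sub_re] at h1
    have h2 := (abs_le.1 h1).1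
    linarith
  have hnorm : ∀ z : ℂ, ∀ x : ℝ, 1 < x → ‖(x : ℂ) ^ (-z - 1)‖ = x ^ (-z.re - 1) := by
    intro z x hx
    rw [Complex.norm_cpow_eq_rpow_re_of_pos (by linarith)]
    simp
  have key := (hasDerivAt_integral_of_dominated_loc_of_deriv_le (μ := volume.restrict (Ioi (1 : ℝ))) (𝕜 := ℂ)
    (F := fun (z : ℂ) (x : ℝ) => (x : ℂ) ^ (-z - 1) * (AA q 0 x - BB 0 x)) (x₀ := w) (s := Metric.ball w r)
    (bound := fun x => 1 / r * (|(pc q x : ℝ) - MM x| * x ^ (-(w.re - 2 * r) - 1)))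
    (F' := fun (z : ℂ) (x : ℝ) => (x : ℂ) ^ (-z - 1) * Complex.log x * (-1) * (AA q 0 x - BB 0 x))
    hmem ?_ ?_ ?_ ?_ ?_ ?_).2
  · have h2 : DifferentiableAt ℂ (fun w : ℂ => mellin (DD q 0) (-w)) w := by
      refine key.differentiableAt.congr_of_eventuallyEq (Eventually.of_forall fun z => ?_)
      exact mellin_DD q 0 z
    exact (differentiableAt_id.mul h2).differentiableWithinAt
  · exact Eventually.of_forall fun z => (cpow_meas z).mul (D_meas hq hg)
  · refine Integrable.mono' (hI w.re hw') ((cpow_meas w).mul (D_meas hq hg)) ?_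
    refine (ae_restrict_iff' measurableSet_Ioi).2 (Eventually.of_forall fun x hx => ?_)
    rw [norm_mul, hnorm w x hx, D_norm, mul_comm]
  · refine (((cpow_meas w).mul ?_).mul_const (-1 : ℂ)).mul (D_meas hq hg)
    exact (Complex.measurable_log.comp Complex.measurable_ofReal).aestronglyMeasurable
  · refine (ae_restrict_iff' measurableSet_Ioi).2 (Eventually.of_forall fun x hx z hz => ?_)
    have hx1 : (1 : ℝ) < x := hx
    have hx0 : (0 : ℝ) < x := by linarith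
    have hlog : ‖Complex.log (x : ℂ)‖ ≤ x ^ r / r := by
      rw [← Complex.ofReal_log hx0.le, Complex.norm_real, Real.norm_of_nonneg (Real.log_nonneg hx1.le)]
      exact Real.log_le_rpow_div hx0.le hr0
    rw [norm_mul, norm_mul, norm_mul, norm_neg, norm_one, mul_one, hnorm z x hx1, D_norm]
    have h3 : x ^ (-z.re - 1) ≤ x ^ (-(w.re - r) - 1) :=
      Real.rpow_le_rpow_of_exponent_le hx1.le (by linarith [hre z hz])
    have h4 : x ^ (-(w.re - r) - 1) * (x ^ r / r) = 1 / r * x ^ (-(w.re - 2 * r) - 1) := by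
      have e : -(w.re - 2 * r) - 1 = (-(w.re - r) - 1) + r := by ring
      rw [e, Real.rpow_add hx0]
      ring
    calc x ^ (-z.re - 1) * ‖Complex.log (x : ℂ)‖ * |(pc q x : ℝ) - MM x|
        ≤ x ^ (-(w.re - r) - 1) * (x ^ r / r) * |(pc q x : ℝ) - MM x| := by
          refine mul_le_mul_of_nonneg_right ?_ (abs_nonneg _)
          exact mul_le_mul h3 hlog (norm_nonneg _) (Real.rpow_nonneg hx0.le _)
      _ = 1 / r * (|(pc q x : ℝ) - MM x| * x ^ (-(w.re - 2 * r) - 1)) := by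
          rw [h4]
          ring
  · exact (hI (w.re - 2 * r) (by rw [hr]; linarith)).const_mul (1 / r)
  · refine (ae_restrict_iff' measurableSet_Ioi).2 (Eventually.of_forall fun x hx z _ => ?_)
    have hx1 : (1 : ℝ) < x := hx
    have hxc : (x : ℂ) ≠ 0 := by
      have : x ≠ 0 := by linarith
      exact_mod_cast this
    have h1 : HasDerivAt (fun z : ℂ => -z - 1) (-1) z := (hasDerivAt_neg z).sub_const 1
    exact (h1.const_cpow (Or.inl hxc)).mul_const _

end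

/-- the zeta function of a given system with small discrepancies for the density with prescribed zeros -/
theorem core_of {γ : ℕ → ℝ} (h0 : ∀ k, 0 < γ k) (hm : Monotone γ) (hW : Windows γ) {q : ℕ → ℝ} (hmono : StrictMono q)
    (hq0 : 1 < q 0) (hg : ∀ j : ℕ, (j : ℝ) + 1 ≤ q j) (hD : @Disc (dens γ h0) q) (hI : @SmallErr (dens γ h0) q) :
    (∃ ρ : ℝ, 0 < ρ ∧ ∀ ε : ℝ, 0 < ε → ∃ C : ℝ, ∀ x : ℝ, 1 ≤ x →
        |({n : ℕ | gint q (n + 1) ≤ x}.ncard : ℝ) - ρ * x| ≤ C * x ^ (1 / 2 + ε)) ∧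
      ∃ Z G : ℂ → ℂ, (∀ s : ℂ, 1 / 3 < s.re → AnalyticAt ℂ Z s) ∧
        (∀ s : ℂ, 1 < s.re → ∑' n : ℕ, ((gint q (n + 1) : ℝ) : ℂ) ^ (-s) = Z s / (s - 1)) ∧
        DifferentiableOn ℂ G {s | 1 / 2 < s.re} ∧
        (∀ s : ℂ, 1 / 2 < s.re → Z s = s * Complex.exp (G s)) ∧
        (∀ σ : ℝ, 1 / 2 < σ → ∃ C : ℝ, 0 ≤ C ∧ ∀ s : ℂ, σ ≤ s.re → ‖G s‖ ≤ C * √(Real.log (|s.im| + 3))) ∧
        ∀ s : ℂ, 1 / 3 < s.re →
          analyticOrderAt Z s = {k | s = 1 / 2 + γ k * I ∨ s = 1 / 2 - γ k * I}.encard := by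
  let _ : Dens := dens γ h0
  have hq1 : ∀ j, 1 < q j := fun j => lt_of_lt_of_le hq0 (hmono.monotone (Nat.zero_le j))
  obtain ⟨H, hH1, hH2, hH3⟩ := lgp3 hmono hq1 hg
  obtain ⟨Φ, hΦ1, hΦ2, hΦ3⟩ := exists_Phi h0 hm hW
  have hT : ∀ s : ℂ, 1 < s.re → Tm s = Tz s - 1 / 2 * Tz (2 * s) + HH γ s := fun s hs => Tm_formula h0 hs
  have hP2 : ∀ s : ℂ, 1 < s.re → FF q 0 s = (∑' j, (q j : ℂ) ^ (-s)) - Tm s := by
    intro s hs
    rw [FF_eq hmono hg hq0 0 hs]
    have e1 : s + ((0 : ℤ) : ℂ) * I = s := by simp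
    rw [e1]
  have hP0 : DifferentiableOn ℂ (FF q 0) {s | 1 / 3 < s.re} := FF_third hmono hg hI
  -- the regular part
  let Ex : ℂ → ℂ := fun s => FF q 0 s + 1 / 2 * FF q 0 (2 * s) - 1 / 4 * Tz (4 * s) + 1 / 2 * HH γ (2 * s) + H s
  have hExd : DifferentiableOn ℂ Ex {s | 1 / 3 < s.re} := by
    have a1 : DifferentiableOn ℂ (FF q 0) {s | 1 / 3 < s.re} := hP0
    have a2 : DifferentiableOn ℂ (fun s => FF q 0 (2 * s)) {s | 1 / 3 < s.re} :=
      hP0.comp (by fun_prop) fun s hs => by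
        have hs' : 1 / 3 < s.re := hs
        show 1 / 3 < (2 * s).re
        rw [re2m]
        linarith
    have a3 : DifferentiableOn ℂ (fun s => Tz (4 * s)) {s | 1 / 3 < s.re} :=
      Tz_diffOn.comp (by fun_prop) fun s hs => by
        have hs' : 1 / 3 < s.re := hs
        show 1 < (4 * s).re
        rw [re4m]
        linarith
    have a4 : DifferentiableOn ℂ (fun s => HH γ (2 * s)) {s | 1 / 3 < s.re} :=
      (HH_diff h0 hW).comp (by fun_prop) fun s hs => by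
        have hs' : 1 / 3 < s.re := hs
        show 1 / 2 < (2 * s).re
        rw [re2m]
        linarith
    exact (((a1.add (a2.const_mul _)).sub (a3.const_mul _)).add (a4.const_mul _)).add hH1
  have hopen3 : IsOpen {s : ℂ | 1 / 3 < s.re} := isOpen_lt continuous_const Complex.continuous_re
  have hopen2 : IsOpen {s : ℂ | 1 / 2 < s.re} := isOpen_lt continuous_const Complex.continuous_re
  have hExa : ∀ s : ℂ, 1 / 3 < s.re → AnalyticAt ℂ Ex s := fun s hs =>
    hExd.analyticAt (hopen3.mem_nhds hs)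
  let G : ℂ → ℂ := fun s => HH γ s + Ex s
  have hGd : DifferentiableOn ℂ G {s | 1 / 2 < s.re} := (HH_diff h0 hW).add (hExd.mono fun s hs => by
    have hs' : 1 / 2 < s.re := hs
    show 1 / 3 < s.re
    linarith)
  have hGb : ∀ σ : ℝ, 1 / 2 < σ → ∃ C : ℝ, 0 ≤ C ∧ ∀ s : ℂ, σ ≤ s.re → ‖G s‖ ≤ C * √(Real.log (|s.im| + 3)) := by
    intro σ hσ
    obtain ⟨C1, h10, h1⟩ := FF_log hmono hg hq0 hD hσ
    obtain ⟨C2, h20, h2⟩ := hH2 σ (by linarith)
    obtain ⟨C3, h30, h3⟩ := HH_bd h0 hW hσ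
    have hσ4 : 0 < 4 * σ - 1 := by linarith
    refine ⟨C1 + 1 / 2 * (2 * C1) + 1 / 4 * (1 / (4 * σ - 1)) + 1 / 2 * C3 + C2 + C3, by positivity, fun s hs => ?_⟩
    have hL3 : (3 : ℝ) ≤ |s.im| + 3 := by linarith [abs_nonneg s.im]
    have hL0 : 0 ≤ Real.log (|s.im| + 3) := Real.log_nonneg (by linarith)
    have hL : 1 ≤ √(Real.log (|s.im| + 3)) := by
      rw [Real.one_le_sqrt, Real.le_log_iff_exp_le (by positivity)]
      have := Real.exp_one_lt_d9
      linarith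
    set L := √(Real.log (|s.im| + 3)) with hLdef
    have b1 := h1 s hs
    have b2 : ‖FF q 0 (2 * s)‖ ≤ C1 * (2 * L) := by
      refine (h1 (2 * s) (by rw [re2m]; linarith)).trans (mul_le_mul_of_nonneg_left ?_ h10)
      rw [im2m]
      have h4 : |2 * s.im| + 3 ≤ (|s.im| + 3) ^ 2 := by
        rw [abs_mul, abs_two]
        nlinarith [abs_nonneg s.im]
      have h7 : Real.log (|2 * s.im| + 3) ≤ 2 * Real.log (|s.im| + 3) := by
        have := Real.log_le_log (by positivity) h4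
        rw [Real.log_pow] at this
        push_cast at this
        exact this
      calc √(Real.log (|2 * s.im| + 3)) ≤ √(2 ^ 2 * Real.log (|s.im| + 3)) := Real.sqrt_le_sqrt (by linarith)
        _ = 2 * L := by rw [Real.sqrt_mul (by norm_num), Real.sqrt_sq (by norm_num)]
    have b3 : ‖Tz (4 * s)‖ ≤ 1 / (4 * σ - 1) := by
      have h5 : 1 < (4 * s).re := by rw [re4m]; linarith
      refine (Tz_norm h5).trans (one_div_le_one_div_of_le hσ4 ?_)
      rw [re4m]
      linarith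
    have b4 : ‖HH γ (2 * s)‖ ≤ C3 := (h3 (2 * s) (by rw [re2m]; linarith)).2
    have b5 : ‖HH γ s‖ ≤ C3 := (h3 s hs).2
    have b6 := h2 s hs
    have e : G s = FF q 0 s + 1 / 2 * FF q 0 (2 * s) - 1 / 4 * Tz (4 * s) + 1 / 2 * HH γ (2 * s) + H s + HH γ s := by
      show HH γ s + (FF q 0 s + 1 / 2 * FF q 0 (2 * s) - 1 / 4 * Tz (4 * s) + 1 / 2 * HH γ (2 * s) + H s) = _
      ring
    have n1 : ‖(1 / 2 : ℂ) * FF q 0 (2 * s)‖ = 1 / 2 * ‖FF q 0 (2 * s)‖ := by
      rw [norm_mul]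
      norm_num
    have n2 : ‖(1 / 4 : ℂ) * Tz (4 * s)‖ = 1 / 4 * ‖Tz (4 * s)‖ := by
      rw [norm_mul]
      norm_num
    have n3 : ‖(1 / 2 : ℂ) * HH γ (2 * s)‖ = 1 / 2 * ‖HH γ (2 * s)‖ := by
      rw [norm_mul]
      norm_num
    have t : ‖G s‖ ≤ ‖FF q 0 s‖ + 1 / 2 * ‖FF q 0 (2 * s)‖ + 1 / 4 * ‖Tz (4 * s)‖ + 1 / 2 * ‖HH γ (2 * s)‖ + ‖H s‖ +
        ‖HH γ s‖ := by
      rw [e, ← n1, ← n2, ← n3]
      refine (norm_add_le _ _).trans (add_le_add ?_ le_rfl)
      refine (norm_add_le _ _).trans (add_le_add ?_ le_rfl)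
      refine (norm_add_le _ _).trans (add_le_add ?_ le_rfl)
      refine (norm_sub_le _ _).trans (add_le_add ?_ le_rfl)
      exact norm_add_le _ _
    have c1 : (1 / 4 * (1 / (4 * σ - 1)) + 1 / 2 * C3 + C2 + C3) ≤
        (1 / 4 * (1 / (4 * σ - 1)) + 1 / 2 * C3 + C2 + C3) * L := le_mul_of_one_le_right (by positivity) hL
    have c2 : C1 * (2 * L) = 2 * C1 * L := by ring
    nlinarith
  have hZ0 : ∀ s : ℂ, 1 < s.re → ∑' n : ℕ, ((gint q (n + 1) : ℝ) : ℂ) ^ (-s) = s / (s - 1) * Complex.exp (G s) := by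
    intro s hs
    rw [euler hmono hq1 hg hs, hH3 s hs]
    have hs2 : 1 < (2 * s).re := by rw [re2m]; linarith
    have e1 : (∑' j, (q j : ℂ) ^ (-s)) = FF q 0 s + (Tz s - 1 / 2 * Tz (2 * s) + HH γ s) := by
      rw [hP2 s hs, ← hT s hs]
      ring
    have e2 : (∑' j, (q j : ℂ) ^ (-(2 * s))) = FF q 0 (2 * s) + (Tz (2 * s) - 1 / 2 * Tz (4 * s) + HH γ (2 * s)) := by
      have e3 : (4 : ℂ) * s = 2 * (2 * s) := by ring
      rw [hP2 (2 * s) hs2, e3, ← hT (2 * s) hs2]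
      ring
    rw [e1, e2]
    have e4 : FF q 0 s + (Tz s - 1 / 2 * Tz (2 * s) + HH γ s) +
        1 / 2 * (FF q 0 (2 * s) + (Tz (2 * s) - 1 / 2 * Tz (4 * s) + HH γ (2 * s))) + H s = Tz s + G s := by
      show _ = Tz s + (HH γ s + (FF q 0 s + 1 / 2 * FF q 0 (2 * s) - 1 / 4 * Tz (4 * s) + 1 / 2 * HH γ (2 * s) + H s))
      ring
    rw [e4, Complex.exp_add, Tz_exp hs]
  obtain ⟨ρ, hρ, hN⟩ := ints hmono hg hq0 hGd hZ0 hGb
  have hZG : ∀ s : ℂ, 1 / 2 < s.re → s * Φ s * Complex.exp (Ex s) = s * Complex.exp (G s) := by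
    intro s hs
    have e := Complex.exp_add (HH γ s) (Ex s)
    show s * Φ s * Complex.exp (Ex s) = s * Complex.exp (HH γ s + Ex s)
    rw [hΦ2 s hs, e, mul_assoc]
  refine ⟨⟨ρ, hρ, hN⟩, fun s => s * Φ s * Complex.exp (Ex s), G,
    fun s hs => ?_, fun s hs => ?_, hGd, hZG, hGb, fun s hs => ?_⟩
  · exact (analyticAt_id.mul (hΦ1 s hs)).mul (hExa s hs).cexp
  · rw [hZ0 s hs]
    beta_reduce
    rw [hZG s (by linarith)]
    ring
  · have a1 : AnalyticAt ℂ (fun s : ℂ => s) s := analyticAt_id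
    have a2 := hΦ1 s hs
    have a3 : AnalyticAt ℂ (fun s => Complex.exp (Ex s)) s := (hExa s hs).cexp
    have hs0 : s ≠ 0 := by
      intro h
      rw [h] at hs
      simp at hs
      linarith
    have o1 : analyticOrderAt (fun s : ℂ => s) s = 0 := by
      rw [a1.analyticOrderAt_eq_zero]
      exact hs0
    have o3 : analyticOrderAt (fun s => Complex.exp (Ex s)) s = 0 := by
      rw [a3.analyticOrderAt_eq_zero]
      exact Complex.exp_ne_zero _
    have e : (fun s => s * Φ s * Complex.exp (Ex s)) = ((fun s : ℂ => s) * Φ) * fun s => Complex.exp (Ex s) := rfl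
    rw [e, analyticOrderAt_mul (a1.mul a2) a3, analyticOrderAt_mul a1 a2, o1, o3, zero_add, add_zero, hΦ3 s hs]

end Pool.Agent.H49.BZ
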