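import Pool.Agent.H73.KZ.Base
import Pool.Agent.H49.KZ.Var
import Pool.Agent.H49.KZ.Z1

/-!
# The density with prescribed zeros has the further properties; the integrals of the counting error
-/

set_option autoImplicit false

open MeasureTheory Filter Topology Set

namespace Pool.Agent.H49.BZ

open Pool.Agent.H49.BP (pc AA)

theorem dens_DV {γ : ℕ → ℝ} (h0 : ∀ k, 0 < γ k) : @Pool.Agent.H73.KZ.DV (dens γ h0) := by
  let _ : Dens := dens γ h0
  refine ⟨fun u hu => nd_up h0 hu, ⟨VV γ, 16, by norm_num, fun u v hu hv => nd_var h0 hu hv, fun x hx =>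
    ⟨VV_nonneg x, VV_le h0 (by linarith)⟩⟩⟩

/-- a counting error of size `x ^ δ` outside sparse short intervals and of size `√x` inside these has convergent integrals -/
theorem smallErr_of [Dens] {q q' : ℕ → ℝ} (hq' : StrictMono q') (hg' : ∀ j : ℕ, (j : ℝ) + 1 ≤ q' j)
    (hC : ∀ δ : ℝ, 0 < δ → ∃ C : ℝ, ∀ x : ℝ, 1 ≤ x → |(pc q x : ℝ) - MM x| ≤ C * x ^ δ)
    {u w : ℕ → ℝ} {K : ℝ} (hK : 0 ≤ K) (h2 : ∀ k, (2 : ℝ) ^ k ≤ u k) (huw : ∀ k, u k ≤ w k)
    (hw : ∀ k, w k - u k ≤ K * √(u k) * Real.log (u k + 2))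
    (hout : ∀ x : ℝ, 1 ≤ x → (∀ k, x ∉ Icc (u k) (w k)) → pc q' x = pc q x)
    (hin : ∀ k, ∀ x ∈ Icc (u k) (w k), |(pc q' x : ℝ) - pc q x| ≤ K * √(u k)) : SmallErr q' := by
  intro σ hσ
  set F : ℝ → ℝ := fun x => |(pc q' x : ℝ) - MM x| * x ^ (-σ - 1) with hF
  have hFm : AEStronglyMeasurable F (volume.restrict (Ioi 1)) := by
    have h1 := (D_meas hq' hg').norm
    have h3 : AEStronglyMeasurable (fun x : ℝ => x ^ (-σ - 1)) (volume.restrict (Ioi 1)) := by
      refine ContinuousOn.aestronglyMeasurable ?_ measurableSet_Ioi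
      intro x hx
      have hx1 : (1 : ℝ) < x := hx
      exact (Real.continuousAt_rpow_const x _ (Or.inl (by linarith))).continuousWithinAt
    refine (h1.mul h3).congr (Eventually.of_forall fun x => ?_)
    show ‖AA q' 0 x - BB 0 x‖ * x ^ (-σ - 1) = _
    rw [D_norm]
  set E : Set ℝ := ⋃ k, Icc (u k) (w k) with hE
  have hEm : MeasurableSet E := MeasurableSet.iUnion fun k => measurableSet_Icc
  -- outside of the intervals
  have hOut : IntegrableOn F (Ioi 1 \ E) := by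
    obtain ⟨C, hC'⟩ := hC (σ / 2) (by linarith)
    have h1 : IntegrableOn (fun x : ℝ => C * x ^ (-(σ / 2) - 1)) (Ioi 1) :=
      (integrableOn_Ioi_rpow_of_lt (by linarith) one_pos).const_mul C
    refine Integrable.mono' (h1.mono_set sdiff_subset) (hFm.mono_measure (Measure.restrict_mono sdiff_subset le_rfl)) ?_
    refine (ae_restrict_iff' (measurableSet_Ioi.diff hEm)).2 (Eventually.of_forall fun x hx => ?_)
    have hx1 : (1 : ℝ) < x := hx.1
    have hx0 : (0 : ℝ) < x := by linarith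
    have hn : ∀ k, x ∉ Icc (u k) (w k) := fun k hk => hx.2 (mem_iUnion.2 ⟨k, hk⟩)
    have e : F x = |(pc q x : ℝ) - MM x| * x ^ (-σ - 1) := by
      rw [hF]
      beta_reduce
      rw [hout x hx1.le hn]
    have h0 : 0 ≤ x ^ (-σ - 1) := Real.rpow_nonneg hx0.le _
    rw [e, Real.norm_of_nonneg (mul_nonneg (abs_nonneg _) h0)]
    refine (mul_le_mul_of_nonneg_right (hC' x hx1.le) h0).trans (le_of_eq ?_)
    have e2 : -(σ / 2) - 1 = σ / 2 + (-σ - 1) := by ring
    rw [e2, Real.rpow_add hx0, mul_assoc]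
  -- inside
  obtain ⟨C, hC'⟩ := hC (1 / 2) (by norm_num)
  have hC0 : 0 ≤ C := by
    have h3 := hC' 1 le_rfl
    rw [Real.one_rpow, mul_one] at h3
    exact (abs_nonneg _).trans h3
  have hu1 : ∀ k, 1 ≤ u k := fun k => le_trans (one_le_pow₀ (by norm_num)) (h2 k)
  have hsup : ∀ k, ∀ x ∈ Icc (u k) (w k), F x ≤ (C + K) * (u k) ^ (-σ - 1 / 2) := by
    intro k x hx
    have hk0 : 0 < u k := by linarith [hu1 k]
    have hx1 : 1 ≤ x := (hu1 k).trans hx.1
    have hx0 : 0 < x := by linarith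
    have h0 : 0 ≤ x ^ (-σ - 1) := Real.rpow_nonneg hx0.le _
    have h3 : |(pc q' x : ℝ) - MM x| ≤ C * x ^ (1 / 2 : ℝ) + K * √(u k) := by
      have h4 := abs_sub_le (pc q' x : ℝ) (pc q x : ℝ) (MM x)
      linarith [hin k x hx, hC' x hx1]
    have h5 : (C * x ^ (1 / 2 : ℝ) + K * √(u k)) * x ^ (-σ - 1) ≤ (C + K) * (u k) ^ (-σ - 1 / 2) := by
      have e1 : x ^ (1 / 2 : ℝ) * x ^ (-σ - 1) = x ^ (-σ - 1 / 2) := by
        rw [← Real.rpow_add hx0]
        congr 1
        ring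
      have e2 : √(u k) * (u k) ^ (-σ - 1) = (u k) ^ (-σ - 1 / 2) := by
        rw [Real.sqrt_eq_rpow, ← Real.rpow_add hk0]
        congr 1
        ring
      have e3 : x ^ (-σ - 1 / 2) ≤ (u k) ^ (-σ - 1 / 2) :=
        Real.rpow_le_rpow_of_nonpos hk0 hx.1 (by linarith)
      have e4 : x ^ (-σ - 1) ≤ (u k) ^ (-σ - 1) :=
        Real.rpow_le_rpow_of_nonpos hk0 hx.1 (by linarith)
      have e5 : √(u k) * x ^ (-σ - 1) ≤ √(u k) * (u k) ^ (-σ - 1) := mul_le_mul_of_nonneg_left e4 (Real.sqrt_nonneg _)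
      calc (C * x ^ (1 / 2 : ℝ) + K * √(u k)) * x ^ (-σ - 1)
          = C * (x ^ (1 / 2 : ℝ) * x ^ (-σ - 1)) + K * (√(u k) * x ^ (-σ - 1)) := by ring
        _ ≤ C * (u k) ^ (-σ - 1 / 2) + K * (u k) ^ (-σ - 1 / 2) := by
            rw [e1]
            rw [e2] at e5
            exact add_le_add (mul_le_mul_of_nonneg_left e3 hC0) (mul_le_mul_of_nonneg_left e5 hK)
        _ = _ := by ring
    exact (mul_le_mul_of_nonneg_right h3 h0).trans h5
  have hFnn : ∀ x, 1 ≤ x → 0 ≤ F x := fun x hx =>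
    mul_nonneg (abs_nonneg _) (Real.rpow_nonneg (by linarith) _)
  have hsub : ∀ k, Icc (u k) (w k) ∩ Ioi 1 ⊆ Ioi 1 := fun k => inter_subset_right
  have hint : ∀ k, IntegrableOn F (Icc (u k) (w k) ∩ Ioi 1) := by
    intro k
    have h1 : IntegrableOn (fun _ : ℝ => (C + K) * (u k) ^ (-σ - 1 / 2)) (Icc (u k) (w k) ∩ Ioi 1) :=
      (integrableOn_const (by simp)).mono_set inter_subset_left
    refine Integrable.mono' h1 (hFm.mono_measure (Measure.restrict_mono (hsub k) le_rfl)) ?_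
    refine (ae_restrict_iff' (measurableSet_Icc.inter measurableSet_Ioi)).2 (Eventually.of_forall fun x hx => ?_)
    have hx1 : (1 : ℝ) < x := hx.2
    rw [Real.norm_of_nonneg (hFnn x hx1.le)]
    exact hsup k x hx.1
  have hbd : ∀ k, ∫ x in Icc (u k) (w k) ∩ Ioi 1, ‖F x‖ ≤
      (C + K) * K * (2 / σ + 3) * ((2 : ℝ) ^ (-(σ / 2))) ^ k := by
    intro k
    have hk1 := hu1 k
    have hk0 : 0 < u k := by linarith
    have hc0 : 0 ≤ (C + K) * (u k) ^ (-σ - 1 / 2) := mul_nonneg (by linarith) (Real.rpow_nonneg hk0.le _)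
    have h1 : ∫ x in Icc (u k) (w k) ∩ Ioi 1, ‖F x‖ ≤ ∫ x in Icc (u k) (w k), (C + K) * (u k) ^ (-σ - 1 / 2) := by
      have h3 : ∫ x in Icc (u k) (w k) ∩ Ioi 1, ‖F x‖ ≤
          ∫ x in Icc (u k) (w k) ∩ Ioi 1, (C + K) * (u k) ^ (-σ - 1 / 2) := by
        refine setIntegral_mono_on (hint k).norm
          ((integrableOn_const (by simp)).mono_set inter_subset_left)
          (measurableSet_Icc.inter measurableSet_Ioi) fun x hx => ?_
        have hx1 : (1 : ℝ) < x := hx.2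
        rw [Real.norm_of_nonneg (hFnn x hx1.le)]
        exact hsup k x hx.1
      refine h3.trans (setIntegral_mono_set (integrableOn_const (by simp)) (Eventually.of_forall fun x => hc0) ?_)
      exact inter_subset_left.eventuallyLE
    have h2' : ∫ x in Icc (u k) (w k), (C + K) * (u k) ^ (-σ - 1 / 2) =
        (w k - u k) * ((C + K) * (u k) ^ (-σ - 1 / 2)) := by
      rw [setIntegral_const, smul_eq_mul, measureReal_def, Real.volume_Icc, ENNReal.toReal_ofReal (by linarith [huw k])]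
    rw [h2'] at h1
    have hlog : Real.log (u k + 2) ≤ (2 / σ + 3) * (u k) ^ (σ / 2) := by
      have h3 : Real.log (u k + 2) ≤ Real.log (3 * u k) := Real.log_le_log (by linarith) (by linarith)
      rw [Real.log_mul (by norm_num) hk0.ne'] at h3
      have h4 := Real.log_le_rpow_div hk0.le (show 0 < σ / 2 by linarith)
      have h5 : Real.log 3 ≤ 3 := (Real.log_le_sub_one_of_pos (by norm_num)).trans (by norm_num)
      have h6 : 1 ≤ (u k) ^ (σ / 2) := Real.one_le_rpow hk1 (by linarith)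
      have e : (u k) ^ (σ / 2) / (σ / 2) = 2 / σ * (u k) ^ (σ / 2) := by
        field_simp
      rw [e] at h4
      nlinarith
    have e1 : √(u k) * (u k) ^ (-σ - 1 / 2) = (u k) ^ (-σ) := by
      rw [Real.sqrt_eq_rpow, ← Real.rpow_add hk0]
      congr 1
      ring
    have e2 : (u k) ^ (σ / 2) * (u k) ^ (-σ) = (u k) ^ (-(σ / 2)) := by
      rw [← Real.rpow_add hk0]
      congr 1
      ring
    have e3 : (u k) ^ (-(σ / 2)) ≤ ((2 : ℝ) ^ (-(σ / 2))) ^ k := by
      have h3 : (u k) ^ (-(σ / 2)) ≤ ((2 : ℝ) ^ k) ^ (-(σ / 2)) :=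
        Real.rpow_le_rpow_of_nonpos (by positivity) (h2 k) (by linarith)
      refine h3.trans (le_of_eq ?_)
      rw [← Real.rpow_natCast, ← Real.rpow_mul (by norm_num), ← Real.rpow_natCast, ← Real.rpow_mul (by norm_num), mul_comm]
    calc ∫ x in Icc (u k) (w k) ∩ Ioi 1, ‖F x‖ ≤ (w k - u k) * ((C + K) * (u k) ^ (-σ - 1 / 2)) := h1
      _ ≤ (K * √(u k) * ((2 / σ + 3) * (u k) ^ (σ / 2))) * ((C + K) * (u k) ^ (-σ - 1 / 2)) := by
          refine mul_le_mul_of_nonneg_right ((hw k).trans ?_) hc0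
          exact mul_le_mul_of_nonneg_left hlog (mul_nonneg hK (Real.sqrt_nonneg _))
      _ = (C + K) * K * (2 / σ + 3) * ((u k) ^ (σ / 2) * (√(u k) * (u k) ^ (-σ - 1 / 2))) := by ring
      _ = (C + K) * K * (2 / σ + 3) * (u k) ^ (-(σ / 2)) := by rw [e1, e2]
      _ ≤ _ := by
          refine mul_le_mul_of_nonneg_left e3 ?_
          have : 0 < 2 / σ := by
            have : 0 < σ := by linarith
            positivity
          positivity
  have hIn : IntegrableOn F (⋃ k, (Icc (u k) (w k) ∩ Ioi 1)) := by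
    refine integrableOn_iUnion_of_summable_integral_norm hint ?_
    have hr : Summable fun k : ℕ => (C + K) * K * (2 / σ + 3) * ((2 : ℝ) ^ (-(σ / 2))) ^ k := by
      refine (summable_geometric_of_lt_one (Real.rpow_nonneg (by norm_num) _) ?_).mul_left _
      exact Real.rpow_lt_one_of_one_lt_of_neg (by norm_num) (by linarith)
    exact Summable.of_nonneg_of_le (fun k => integral_nonneg fun x => norm_nonneg _) hbd hr
  refine (hOut.union hIn).mono_set fun x hx => ?_
  by_cases h : x ∈ E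
  · obtain ⟨k, hk⟩ := mem_iUnion.1 h
    exact Or.inr (mem_iUnion.2 ⟨k, hk, hx⟩)
  · exact Or.inl ⟨hx, h⟩

end Pool.Agent.H49.BZ
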