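import Pool.Agent.H49.KZ.Z1
import Pool.Agent.H49.BZ.Final

/-!
# A system with the given zeros from small discrepancies
-/

set_option autoImplicit false

open MeasureTheory Filter Topology Set Complex

namespace Pool.Agent.H49.BZ

open Pool.Agent.H49.BP (gint pc AA)

theorem disc_count [Dens] {q : ℕ → ℝ} (hD : Disc q) {δ : ℝ} (hδ : 0 < δ) : ∃ C : ℝ, 0 ≤ C ∧ ∀ x : ℝ, 1 ≤ x →
    |(pc q x : ℝ) - MM x| ≤ C * x ^ (1 / 2 + δ) := by
  obtain ⟨C, hC0, hC⟩ := hD δ hδ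
  refine ⟨C * √(Real.log (|((0 : ℤ) : ℝ)| + 3)), by positivity, fun x hx => ?_⟩
  have h1 := hC 0 x hx
  rw [D_norm] at h1
  refine h1.trans (le_of_eq ?_)
  ring

/-- the system with the given zeros -/
theorem rh_of {γ : ℕ → ℝ} (h0 : ∀ k, 0 < γ k) (hm : Monotone γ) (hW : Windows γ) {q : ℕ → ℝ} (hmono : StrictMono q)
    (hq0 : 1 < q 0) (hg : ∀ j : ℕ, (j : ℝ) + 1 ≤ q j) (hD : @Disc (dens γ h0) q) (hI : @SmallErr (dens γ h0) q) :
    ∃ Z : ℂ → ℂ, RHSystem q Z ∧ ∀ s : ℂ, 1 / 3 < s.re →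
      analyticOrderAt Z s = {k | s = 1 / 2 + γ k * I ∨ s = 1 / 2 - γ k * I}.encard := by
  obtain ⟨⟨ρ, hρ, hN⟩, Z, G, hZ1, hZ2, hG1, hG2, hG3, hord⟩ := core_of h0 hm hW hmono hq0 hg hD hI
  refine ⟨Z, ⟨hmono, hq0, fun ε hε => ?_, ⟨ρ, hρ, fun ε hε => ?_⟩, hZ1, hZ2, G, hG1, hG2, fun σ hσ => ?_⟩, hord⟩
  · obtain ⟨C, hC0, hC⟩ := nd_mass h0 hm hW hε
    obtain ⟨C', hC0', hC'⟩ := @disc_count (dens γ h0) q hD ε hε
    refine ⟨C + C', fun x hx => ?_⟩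
    have h1 : |(pc q x : ℝ) - ∫ u in (1 : ℝ)..x, nd γ u| ≤ C' * x ^ (1 / 2 + ε) := hC' x (by linarith)
    have h2 := hC x hx
    have h4 := abs_add_le ((pc q x : ℝ) - ∫ u in (1 : ℝ)..x, nd γ u)
      ((∫ u in (1 : ℝ)..x, nd γ u) - ∫ u in (2 : ℝ)..x, (Real.log u)⁻¹)
    have e : ((pc q x : ℝ) - ∫ u in (1 : ℝ)..x, nd γ u) +
      ((∫ u in (1 : ℝ)..x, nd γ u) - ∫ u in (2 : ℝ)..x, (Real.log u)⁻¹) =
      (primeCount q x : ℝ) - ∫ u in (2 : ℝ)..x, (Real.log u)⁻¹ := by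
      show _ = (pc q x : ℝ) - _
      ring
    rw [e] at h4
    linarith
  · obtain ⟨C, hC⟩ := hN ε hε
    refine ⟨C, fun x hx => ?_⟩
    have e : intCount q x = {n : ℕ | gint q (n + 1) ≤ x}.ncard := by
      unfold intCount
      have h1 : {n : ℕ | 1 ≤ n ∧ gint q n ≤ x} = (fun n => n + 1) '' {n : ℕ | gint q (n + 1) ≤ x} := by
        ext n
        constructor
        · rintro ⟨h2, h3⟩
          refine ⟨n - 1, ?_, by simp only; omega⟩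
          show gint q (n - 1 + 1) ≤ x
          rw [Nat.sub_add_cancel h2]
          exact h3
        · rintro ⟨k, hk, rfl⟩
          exact ⟨by simp only; omega, hk⟩
      rw [h1, Set.ncard_image_of_injective _ (fun a b hab => by simpa using hab)]
    rw [e]
    exact hC x hx
  · obtain ⟨C, _, hC⟩ := hG3 σ hσ
    exact ⟨C, hC⟩

end Pool.Agent.H49.BZ
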