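import Pool.Agent.H49.BZ.Cut

/-!
# The density with prescribed zeros is asymptotic to `1 / log`
-/

set_option autoImplicit false

open MeasureTheory Filter Topology Set

namespace Pool.Agent.H49.BZ

/-- the density is asymptotic to `1 / log` -/
class DA [Dens] : Prop where
  asy : ∀ ε : ℝ, 0 < ε → ∀ᶠ u in atTop, |md u * Real.log u - 1| ≤ ε

theorem ek_small {γ : ℕ → ℝ} (h0 : ∀ k, 0 < γ k) (htop : Tendsto γ atTop atTop) {ε : ℝ} (hε : 0 < ε) :
    ∀ᶠ u in atTop, |(∑' k, ek γ k u) * Real.log u| ≤ ε := by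
  obtain ⟨k0, hk0⟩ := (htop.eventually (eventually_ge_atTop ((1 / ε) ^ 2))).exists_forall_of_atTop
  have hs : Tendsto (fun u : ℝ => √u) atTop atTop := Real.tendsto_sqrt_atTop
  filter_upwards [eventually_gt_atTop (1 : ℝ), hs.eventually (eventually_ge_atTop (4 * (k0 : ℝ) / ε))] with u hu hsu
  have hl := Real.log_pos hu
  have hs1 : 1 ≤ √u := Real.one_le_sqrt.2 hu.le
  have hs0 : 0 < √u := by linarith
  have hε2 : 0 < 1 / ε := by positivity
  -- the index from which on the terms are absent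
  set N : ℕ := k0 + ⌈ε * √u / 4⌉₊ with hN
  have hz : ∀ k, k ∉ Finset.range k0 ∪ Finset.range ⌊ε * √u / 8⌋₊ → ek γ k u = 0 := by
    intro k hk
    rw [Finset.mem_union, Finset.mem_range, Finset.mem_range] at hk
    push Not at hk
    obtain ⟨h1, h2⟩ := hk
    unfold ek
    rw [if_neg]
    intro h
    have h3 := (UU_ge h0 k).trans h
    have h4 : (1 / ε) ^ 2 ≤ 1 + γ k := by linarith [hk0 k h1]
    have h5 : ((8 * (k : ℝ) + 9) * (1 / ε)) ^ 2 ≤ u := by
      rw [mul_pow]
      refine le_trans ?_ h3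
      exact mul_le_mul_of_nonneg_left h4 (by positivity)
    have h6 : (8 * (k : ℝ) + 9) * (1 / ε) ≤ √u := Real.le_sqrt_of_sq_le h5
    have h7 : 8 * (k : ℝ) + 9 ≤ ε * √u := by
      have h8 := mul_le_mul_of_nonneg_left h6 hε.le
      have e : ε * ((8 * (k : ℝ) + 9) * (1 / ε)) = 8 * (k : ℝ) + 9 := by
        field_simp
      rw [e] at h8
      exact h8
    have h8 : ε * √u / 8 < ⌊ε * √u / 8⌋₊ + 1 := Nat.lt_floor_add_one _
    have h9 : (⌊ε * √u / 8⌋₊ : ℝ) ≤ k := by exact_mod_cast h2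
    linarith
  rw [tsum_eq_sum hz, Finset.sum_mul]
  have hb : ∀ k, |ek γ k u * Real.log u| ≤ 2 / √u := by
    intro k
    rw [abs_mul, abs_of_pos hl]
    have h1 := mul_le_mul_of_nonneg_right (ek_abs (γ := γ) k hu) hl.le
    refine h1.trans (le_of_eq ?_)
    field_simp
  refine (Finset.abs_sum_le_sum_abs _ _).trans ?_
  refine (Finset.sum_le_sum fun k _ => hb k).trans ?_
  rw [Finset.sum_const, nsmul_eq_mul]
  have hc : ((Finset.range k0 ∪ Finset.range ⌊ε * √u / 8⌋₊).card : ℝ) ≤ k0 + ε * √u / 8 := by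
    have h1 := Finset.card_union_le (Finset.range k0) (Finset.range ⌊ε * √u / 8⌋₊)
    rw [Finset.card_range, Finset.card_range] at h1
    have h2 : (⌊ε * √u / 8⌋₊ : ℝ) ≤ ε * √u / 8 := Nat.floor_le (by positivity)
    have h3 : ((Finset.range k0 ∪ Finset.range ⌊ε * √u / 8⌋₊).card : ℝ) ≤ ((k0 + ⌊ε * √u / 8⌋₊ : ℕ) : ℝ) := by
      exact_mod_cast h1
    push_cast at h3
    linarith
  have hk : (k0 : ℝ) ≤ ε * √u / 4 := by
    rw [div_le_iff₀ hε] at hsu
    linarith
  calc ((Finset.range k0 ∪ Finset.range ⌊ε * √u / 8⌋₊).card : ℝ) * (2 / √u) ≤ (k0 + ε * √u / 8) * (2 / √u) :=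
        mul_le_mul_of_nonneg_right hc (by positivity)
    _ ≤ (ε * √u / 4 + ε * √u / 8) * (2 / √u) := mul_le_mul_of_nonneg_right (by linarith) (by positivity)
    _ = 3 / 4 * ε := by
        field_simp
        ring
    _ ≤ ε := by linarith

/-- the density with prescribed zeros is asymptotic to `1 / log` -/
theorem nd_asymp {γ : ℕ → ℝ} (h0 : ∀ k, 0 < γ k) (htop : Tendsto γ atTop atTop) {ε : ℝ} (hε : 0 < ε) :
    ∀ᶠ u in atTop, |nd γ u * Real.log u - 1| ≤ ε := by
  have hs : Tendsto (fun u : ℝ => √u) atTop atTop := Real.tendsto_sqrt_atTop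
  filter_upwards [eventually_gt_atTop (1 : ℝ), hs.eventually (eventually_ge_atTop (2 / ε)),
    ek_small h0 htop (half_pos hε)] with u hu hsu hek
  have hl := Real.log_pos hu
  have hs1 : 1 ≤ √u := Real.one_le_sqrt.2 hu.le
  have hs0 : 0 < √u := by linarith
  have h2 := inv_sqrt_lt hu
  have h3 : 0 < (√u)⁻¹ := by positivity
  have e : nd γ u * Real.log u - 1 = -((√u)⁻¹ / 2 + (√u)⁻¹ * (√u)⁻¹ / 2) - (∑' k, ek γ k u) * Real.log u := by
    unfold nd
    rw [main_eq hu]
    field_simp
    ring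
  have h4 : (√u)⁻¹ ≤ ε / 2 := by
    have h5 : (√u)⁻¹ ≤ (2 / ε)⁻¹ := inv_anti₀ (by positivity) hsu
    rwa [inv_div] at h5
  have h5 : (√u)⁻¹ * (√u)⁻¹ ≤ (√u)⁻¹ := mul_le_of_le_one_left h3.le h2.le
  rw [e]
  obtain ⟨h6, h7⟩ := abs_le.1 hek
  refine abs_le.2 ⟨?_, ?_⟩ <;> nlinarith

theorem dens_DA {γ : ℕ → ℝ} (h0 : ∀ k, 0 < γ k) (htop : Tendsto γ atTop atTop) : @DA (dens γ h0) := by
  let _ : Dens := dens γ h0
  exact ⟨fun ε hε => nd_asymp h0 htop hε⟩

/-- the mass of an interval `[x, x + H]`, `H ≤ x` -/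
theorem mass_asymp [Dens] [DA] {ε : ℝ} (hε : 0 < ε) : ∀ᶠ x in atTop, ∀ H : ℝ, 0 ≤ H → H ≤ x →
    (1 - ε) * H ≤ (MM (x + H) - MM x) * Real.log x ∧ (MM (x + H) - MM x) * Real.log x ≤ (1 + ε) * H := by
  have hlog : Tendsto Real.log atTop atTop := Real.tendsto_log_atTop
  obtain ⟨B, hB⟩ := (DA.asy (ε / 2) (half_pos hε)).exists_forall_of_atTop
  filter_upwards [eventually_ge_atTop (max B 2), hlog.eventually (eventually_ge_atTop (2 / ε + 1)),
    hlog.eventually (eventually_ge_atTop (1 : ℝ))] with x hx hlx hlx1 H hH0 hHx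
  have hxB : B ≤ x := (le_max_left _ _).trans hx
  have hx2 : 2 ≤ x := (le_max_right _ _).trans hx
  have hl : 0 < Real.log x := by linarith
  have hi : IntervalIntegrable md volume x (x + H) := md_int (by linarith) (by linarith)
  have hic : ∀ c : ℝ, IntervalIntegrable (fun _ => c) volume x (x + H) := fun c => intervalIntegrable_const
  rw [MM_sub (by linarith) (by linarith)]
  have hup : ∀ u ∈ Icc x (x + H), md u * Real.log x ≤ 1 + ε := by
    intro u hu
    have h1 := (abs_le.1 (hB u (hxB.trans hu.1))).2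
    have h2 : Real.log x ≤ Real.log u := Real.log_le_log (by linarith) hu.1
    have h3 : 0 ≤ md u := md_nonneg (by linarith [hu.1])
    have h4 := mul_le_mul_of_nonneg_left h2 h3
    linarith
  have hlo : ∀ u ∈ Icc x (x + H), 1 - ε ≤ md u * Real.log x := by
    intro u hu
    have h1 := (abs_le.1 (hB u (hxB.trans hu.1))).1
    have h2 : Real.log u ≤ Real.log x + 1 := by
      have h3 : Real.log u ≤ Real.log (2 * x) := Real.log_le_log (by linarith [hu.1]) (by linarith [hu.2])
      rw [Real.log_mul (by norm_num) (by linarith)] at h3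
      linarith [Real.log_two_lt_d9]
    have h3 : 0 ≤ md u := md_nonneg (by linarith [hu.1])
    have hlu : 0 < Real.log u := by
      have := Real.log_le_log (by linarith : (0 : ℝ) < x) hu.1
      linarith
    -- md u ≥ (1 - ε/2) / log u ≥ (1 - ε/2)/(log x + 1)
    rcases le_or_gt 1 ε with hc | hc
    · have : 0 ≤ md u * Real.log x := mul_nonneg h3 hl.le
      linarith
    have h4 : (1 - ε / 2) ≤ md u * (Real.log x + 1) := by
      have h5 := mul_le_mul_of_nonneg_left h2 h3
      linarith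
    have h6 : (1 - ε) * (Real.log x + 1) ≤ (1 - ε / 2) * Real.log x := by
      have h7 : 1 ≤ ε / 2 * Real.log x := by
        have h8 := mul_le_mul_of_nonneg_left hlx (by linarith : (0 : ℝ) ≤ ε / 2)
        have e : ε / 2 * (2 / ε + 1) = 1 + ε / 2 := by
          field_simp
        rw [e] at h8
        linarith
      nlinarith
    have h9 : (1 - ε) * (Real.log x + 1) ≤ md u * Real.log x * (Real.log x + 1) := by
      refine h6.trans ?_
      have h10 := mul_le_mul_of_nonneg_right h4 hl.le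
      calc (1 - ε / 2) * Real.log x ≤ md u * (Real.log x + 1) * Real.log x := h10
        _ = _ := by ring
    exact le_of_mul_le_mul_right h9 (by linarith)
  constructor
  · have h1 := intervalIntegral.integral_mono_on (by linarith : x ≤ x + H) (hic (1 - ε)) (hi.mul_const (Real.log x)) hlo
    rw [intervalIntegral.integral_const, intervalIntegral.integral_mul_const, smul_eq_mul] at h1
    linarith
  · have h1 := intervalIntegral.integral_mono_on (by linarith : x ≤ x + H) (hi.mul_const (Real.log x)) (hic (1 + ε)) hup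
    rw [intervalIntegral.integral_const, intervalIntegral.integral_mul_const, smul_eq_mul] at h1
    linarith

end Pool.Agent.H49.BZ
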