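import Pool.Agent.H49.KZ.SysP
import Pool.Agent.H49.KZ.Asy
import Pool.Agent.H73.KP.A2Pb
import Pool.Agent.H73.KP.Glob
import Pool.Agent.H73.KP.Seg
import Pool.Agent.H73.KP.Rot
import Pool.Agent.H73.KP.Bin

/-!
# The systems before the holes, with the Poisson law: assembly
-/

set_option autoImplicit false

open MeasureTheory Filter Topology Set

namespace Pool.Agent.H49.BZ

open Pool.Agent.H73.KZ (DV)
open Pool.Agent.H73.KP (realise2 glob ms_top Q_cont rot_vol_of seg_vol)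

theorem baseP : S_baseP := by
  intro γ h0 hm hW n hn V
  let _ : Dens := dens γ h0
  have _ : DV := dens_DV h0
  obtain ⟨a, S, q, D, v, hst, hD, hc, hlaw, hv, hY, hbad⟩ := realise2 hn V
  exact ⟨a, S, q, hst, hD, hc, hlaw, fun l hl k =>
    glob (fun ε hε => nd_asymp h0 (gam_top h0 hm hW) hε) hst.1 hst.2.2.1 hst.2.2.2 hv hY hbad ms_top k (Q_cont k)
      (fun l hl η hη => rot_vol_of k hl (fun η hη => seg_vol k hl hη) hη) hl⟩

/-- the system with prescribed zeros and constants and with the Poisson law -/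
theorem sysP {γ : ℕ → ℝ} (h0 : ∀ k, 0 < γ k) (hm : Monotone γ) (hW : Windows γ) {c : Finset ℕ → ℝ} (hc : ∀ D, 0 ≤ c D)
    (hc0 : ∀ D D' : Finset ℕ, 0 ∈ D → 2 ≤ D.card → 0 ∈ D' → (∃ t, ∀ d ∈ D, t + d ∈ D') → c D = 0 → c D' = 0) :
    ∃ (q : ℕ → ℝ) (Z : ℂ → ℂ), RHSystem q Z ∧ HasZeros Z γ ∧ ExplicitFormula q γ ∧ Constellations q c ∧
      PoissonLaw q := syscP baseP h0 hm hW hc hc0

end Pool.Agent.H49.BZ
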