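import Pool.Agent.H49.KZ.Inst
import Pool.Agent.H49.KZ.Rh
import Pool.Agent.H49.BZ.Blk
import Pool.Agent.H49.BZ.Ord
import Pool.Agent.H73.KZ.A2
import Pool.Agent.H73.KT.Fin

/-!
# Systems with prescribed zeros and with prescribed laws of all constellations
-/

set_option autoImplicit false

open MeasureTheory Filter Topology Set Complex

namespace Pool.Agent.H49.BZ

open Pool.Agent.H49.BP (gint pc AA)
open Pool.Agent.H73.KT (Laws tc)
open Pool.Agent.H73.KZ (DV)

/-- The number of the generalised primes `p ≤ x` such that `p + d` is a generalised prime for every `d ∈ D`. -/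
noncomputable def patternCount (q : ℕ → ℝ) (D : Finset ℕ) (x : ℝ) : ℕ :=
  {n : ℕ | q n ≤ x ∧ ∀ d ∈ D, ∃ k, q k = q n + d}.ncard

/-- The laws of the constellations: for every pattern `D` (a finite set of natural numbers with `0 ∈ D` and at least two
elements) the number of the generalised primes `p ≤ x` such that `p + d` is a generalised prime for all `d ∈ D` is
`c D ∫_2^x du / (log u) ^ |D| + O(x ^ (1 / 2 + ε))`, for every `ε > 0`. -/
def Constellations (q : ℕ → ℝ) (c : Finset ℕ → ℝ) : Prop :=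
  ∀ D : Finset ℕ, 0 ∈ D → 2 ≤ D.card → ∀ ε : ℝ, 0 < ε → ∃ C : ℝ, ∀ x : ℝ, 2 ≤ x →
    |(patternCount q D x : ℝ) - c D * ∫ u in (2 : ℝ)..x, 1 / (Real.log u) ^ D.card| ≤ C * x ^ (1 / 2 + ε)

/-- The order of vanishing of `Z` at every point of the half-plane `Re s > 1 / 3` is the number of the indices `k` with
`s = 1 / 2 + i γ_k` or `s = 1 / 2 - i γ_k`. -/
def HasZeros (Z : ℂ → ℂ) (γ : ℕ → ℝ) : Prop := ∀ s : ℂ, 1 / 3 < s.re →
  analyticOrderAt Z s = {k : ℕ | s = 1 / 2 + γ k * I ∨ s = 1 / 2 - γ k * I}.encard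

/-- The cut-off `U_k = exp (π N / γ_k)` of the explicit formula, with the least natural number `N` for which it is at least
`(8 k + 9) ^ 2 (1 + γ_k)`. -/
noncomputable def cutOff (γ : ℕ → ℝ) (k : ℕ) : ℝ :=
  Real.exp (Real.pi * ⌈γ k * (2 * Real.log (8 * k + 9) + Real.log (1 + γ k)) / Real.pi⌉₊ / γ k)

/-- The explicit formula with the cut-offs `U_k`: the number of the generalised primes up to `x` is
`∫_1^x ((1 - 1 / u) - (u ^ (-1 / 2) - 1 / u) / 2 - ∑_{U_k ≤ u} 2 u ^ (-1 / 2) cos (γ_k log u)) du / log u + O(x ^ ε)`, for every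
`ε > 0`. -/
def ExplicitFormula (q : ℕ → ℝ) (γ : ℕ → ℝ) : Prop := ∀ ε : ℝ, 0 < ε → ∃ C : ℝ, ∀ x : ℝ, 1 ≤ x →
  |(primeCount q x : ℝ) - ∫ u in (1 : ℝ)..x, (((1 - u⁻¹) - 1 / 2 * ((√u)⁻¹ - u⁻¹)) / Real.log u -
    ∑' k, if cutOff γ k ≤ u then 2 * Real.cos (γ k * Real.log u) / (√u * Real.log u) else 0)| ≤ C * x ^ ε

theorem smallErr_self [Dens] {q : ℕ → ℝ} (hq : StrictMono q) (hg : ∀ j : ℕ, (j : ℝ) + 1 ≤ q j)
    (hC : ∀ δ : ℝ, 0 < δ → ∃ C : ℝ, ∀ x : ℝ, 1 ≤ x → |(pc q x : ℝ) - MM x| ≤ C * x ^ δ) : SmallErr q :=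
  smallErr_of (u := fun k => (2 : ℝ) ^ k) (w := fun k => (2 : ℝ) ^ k) (K := 0) hq hg hC le_rfl (fun _ => le_rfl)
    (fun _ => le_rfl) (fun _ => by simp) (fun _ _ _ => rfl) (fun _ _ _ => by simp)

/-- the system with prescribed zeros and laws -/
theorem sys0 {γ : ℕ → ℝ} (h0 : ∀ k, 0 < γ k) (hm : Monotone γ) (hW : Windows γ) {n : Finset ℕ → ℝ → ℝ} (hn : Laws n) :
    ∃ (q : ℕ → ℝ) (Z : ℂ → ℂ), RHSystem q Z ∧ HasZeros Z γ ∧ ExplicitFormula q γ ∧
      ∀ D : Finset ℕ, 0 ∈ D → 2 ≤ D.card → ∀ ε : ℝ, 0 < ε → ∃ C : ℝ, ∀ x : ℝ, 2 ≤ x →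
        |(patternCount q D x : ℝ) - ∫ u in (2 : ℝ)..x, n D u / Real.log u| ≤ C * x ^ (1 / 2 + ε) := by
  let _ : Dens := dens γ h0
  have _ : DV := dens_DV h0
  obtain ⟨a, S, q, hst, hD, hc, hlaw⟩ := Pool.Agent.H73.KZ.realise0 hn (fun _ => 0)
  have hq := hst.2.2.2.1
  obtain ⟨Z, hZ, hord⟩ := rh_of h0 hm hW hq.1 hq.2.2.1 hq.2.1 hD (smallErr_self hq.1 hq.2.1 hc)
  exact ⟨q, Z, hZ, hord, hc, hlaw⟩

/-- the system with prescribed zeros and constants -/
theorem sysc {γ : ℕ → ℝ} (h0 : ∀ k, 0 < γ k) (hm : Monotone γ) (hW : Windows γ) {c : Finset ℕ → ℝ} (hc : ∀ D, 0 ≤ c D)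
    (hc0 : ∀ D D' : Finset ℕ, 0 ∈ D → 2 ≤ D.card → 0 ∈ D' → (∃ t, ∀ d ∈ D, t + d ∈ D') → c D = 0 → c D' = 0) :
    ∃ (q : ℕ → ℝ) (Z : ℂ → ℂ), RHSystem q Z ∧ HasZeros Z γ ∧ ExplicitFormula q γ ∧ Constellations q c := by
  have hmt : ∀ {D D' : Finset ℕ}, Pool.Agent.H73.KT.mult D D' ≠ 0 → ∃ t, ∀ d ∈ D, t + d ∈ D' := by
    intro D D' h
    obtain ⟨t, _, h⟩ := Pool.Agent.H73.KT.mult_ne h
    exact ⟨t, h⟩
  obtain ⟨q, Z, hZ, hord, hex, hlaw⟩ := sys0 h0 hm hW (Pool.Agent.H73.KT.nb_laws hc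
    (fun D D' hD hD2 hD' hm => hc0 D D' hD hD2 hD' (hmt hm)) (Bad := fun _ => False) (fun _ _ _ h => h)
    (X := ∅) MeasurableSet.empty)
  refine ⟨q, Z, hZ, hord, hex, fun D hD hD2 ε hε => ?_⟩
  obtain ⟨C, hC⟩ := hlaw D hD hD2 ε hε
  refine ⟨C, fun x hx => ?_⟩
  rw [← Pool.Agent.H73.KT.nb_int (Bad := fun _ => False) (X := ∅) hD2 (fun h => h) hx]
  exact hC x hx

/-- the zeros of a system near the solutions of the main term of the Riemann-von Mangoldt formula -/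
theorem near_of {γ : ℕ → ℝ} (h : Near γ) (hm : Monotone γ) {q : ℕ → ℝ} {Z : ℂ → ℂ} (hS : RHSystem q Z)
    (hord : HasZeros Z γ) :
    Tendsto γ atTop atTop ∧ (∀ s : ℂ, 1 / 3 < s.re → Z s = 0 → s.re = 1 / 2) ∧
      (∀ T₁ T₂ : ℝ, 0 ≤ T₁ → (zeros Z T₁ T₂).Finite ∧ zeroCount Z T₁ T₂ = cnt γ T₂ - cnt γ T₁ ∧
        distinctCount Z T₁ T₂ = ((Finset.Ico (cnt γ T₁) (cnt γ T₂)).image γ).card) ∧
      ((fun T : ℝ => (zeroCount Z 0 T : ℝ) - T / (2 * Real.pi) * Real.log (T / (2 * Real.pi * Real.exp 1))) =O[atTop]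
        Real.log) := by
  have h0 := near_pos h
  have hW := near_windows h
  have htop := gam_top h0 hm hW
  have hZ := hS.2.2.2.2.1
  refine ⟨htop, fun s hs hz => zero_line hZ hord hs hz, fun T₁ T₂ hT => ⟨?_, ?_, ?_⟩, ?_⟩
  · rw [zeros_eq h0 hZ hord hm htop hT]
    exact Finset.finite_toSet _
  · exact zeroCount_eq h0 hZ hord hm htop hT
  · exact distinct_eq h0 hZ hord hm htop hT
  · refine Asymptotics.IsBigO.of_bound 3 ?_
    filter_upwards [eventually_ge_atTop (2 * Real.pi * Real.exp 1)] with T hT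
    have h17 : 17 ≤ T := c_bounds.1.trans hT
    have hc0 : cnt γ 0 = 0 := by
      by_contra hne
      have := (lt_cnt hm htop 0 0).1 (Nat.pos_of_ne_zero hne)
      linarith [h0 0]
    rw [zeroCount_eq h0 hZ hord hm htop le_rfl, hc0, Nat.sub_zero]
    have hL : 1 ≤ Real.log T := by
      rw [Real.le_log_iff_exp_le (by linarith)]
      have := Real.exp_one_lt_d9
      linarith
    have h1 := near_cnt h hm htop hT
    have e : T / (2 * Real.pi) * Real.log (T / (2 * Real.pi * Real.exp 1)) = rvm T := by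
      unfold rvm GA
      have hp := tp
      have hTp : 0 < T / (2 * Real.pi) := by positivity
      have e2 : T / (2 * Real.pi * Real.exp 1) = T / (2 * Real.pi) / Real.exp 1 := (div_div _ _ _).symm
      rw [e2, Real.log_div hTp.ne' (Real.exp_pos 1).ne', Real.log_exp]
      ring
    rw [e, Real.norm_eq_abs, Real.norm_of_nonneg (by linarith)]
    linarith

/-- simple zeros between the solutions -/
theorem between_of {γ : ℕ → ℝ} (h : Between γ) {q : ℕ → ℝ} {Z : ℂ → ℂ} (hS : RHSystem q Z)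
    (hord : HasZeros Z γ) : RegularZeros Z ∧ ordinates Z = range γ := by
  have hsm := h.strictMono
  have h0 := near_pos h.near
  obtain ⟨_, hline, hcount, hrvm⟩ := near_of h.near hsm.monotone hS hord
  have hZ := hS.2.2.2.2.1
  refine ⟨⟨fun s hs hz => ⟨hline s hs hz, ?_⟩, fun T₁ T₂ hT => (hcount T₁ T₂ hT).1, hrvm⟩, ?_⟩
  · obtain ⟨k, hk⟩ := (zero_iff hZ hord hs).1 hz
    rw [hord s hs, Set.encard_eq_one]
    refine ⟨k, ?_⟩
    ext j
    rw [mem_singleton_iff, mem_ofPred_eq]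
    constructor
    · intro hj
      have h1 := h0 k
      have h2 := h0 j
      rcases hk with hk | hk <;> rcases hj with hj | hj <;> rw [hk] at hj
      · have := congrArg Complex.im hj
        simp at this
        exact (hsm.injective this).symm
      · have := congrArg Complex.im hj
        simp at this
        linarith
      · have := congrArg Complex.im hj
        simp at this
        linarith
      · have := congrArg Complex.im hj
        simp at this
        exact (hsm.injective this).symm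
    · rintro rfl
      exact hk
  · ext t
    constructor
    · rintro ⟨ht, β, hβ, hz⟩
      obtain ⟨k, hk⟩ := (upper_iff h0 hZ hord (s := β + t * I) (by simpa using hβ) (by simpa using ht)).1 hz
      refine ⟨k, ?_⟩
      have := congrArg Complex.im hk
      rw [pt_im] at this
      simp at this
      exact this.symm
    · rintro ⟨k, rfl⟩
      refine ⟨h0 k, 1 / 2, by norm_num, ?_⟩
      refine (zero_iff hZ hord (by simp; norm_num)).2 ⟨k, Or.inl ?_⟩
      push_cast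
      rfl

end Pool.Agent.H49.BZ
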