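import Pool.Agent.H49.KZ.Sys0
import Pool.Agent.H73.KP.Defs
import Pool.Agent.H73.KP.MvP

/-!
# Systems with prescribed zeros, prescribed laws of all constellations and the Poisson law of short intervals
-/

set_option autoImplicit false

open MeasureTheory Filter Topology Set Complex

namespace Pool.Agent.H49.BZ

open Pool.Agent.H49.BP (pc)
open Pool.Agent.H73.KT (Laws tc Slow)
open Pool.Agent.H73.KZ (Blocks Enum)
open Pool.Agent.H73.KP (cw Q)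

/-- The number of the generalised primes in `(x, x + μ]`. -/
noncomputable def windowCount (q : ℕ → ℝ) (x μ : ℝ) : ℕ := {n : ℕ | x < q n ∧ q n ≤ x + μ}.ncard

/-- The Poisson law of the generalised primes in short intervals: for every `l > 0` and every `k`, the proportion of the
`x ∈ [2, X]` with exactly `k` generalised primes in `(x, x + l log x]` tends to `e ^ (-l) l ^ k / k!`. -/
def PoissonLaw (q : ℕ → ℝ) : Prop := ∀ l : ℝ, 0 < l → ∀ k : ℕ,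
  Tendsto (fun X : ℝ => volume.real {x : ℝ | 2 ≤ x ∧ x ≤ X ∧ windowCount q x (l * Real.log x) = k} / X) atTop
    (𝓝 (Real.exp (-l) * l ^ k / (k.factorial : ℝ)))

/-- the systems before the holes -/
def S_baseP : Prop := ∀ {γ : ℕ → ℝ} (h0 : ∀ k, 0 < γ k) (_ : Monotone γ) (_ : Windows γ) {n : Finset ℕ → ℝ → ℝ}
    (_ : Laws n) (V : ℕ → ℕ), ∃ (a : ℕ → ℕ) (S : ℕ → Finset ℝ) (q : ℕ → ℝ),
      (Slow a ∧ (∀ b, a b ≠ 0 → V (a b) ≤ b) ∧ @Blocks (dens γ h0) a S ∧ Enum a S q) ∧ @Disc (dens γ h0) q ∧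
      (∀ δ : ℝ, 0 < δ → ∃ C : ℝ, ∀ x : ℝ, 1 ≤ x → |(pc q x : ℝ) - @MM (dens γ h0) x| ≤ C * x ^ δ) ∧
      (∀ E : Finset ℕ, 0 ∈ E → 2 ≤ E.card → ∀ ε : ℝ, 0 < ε → ∃ C : ℝ, ∀ x : ℝ, 2 ≤ x →
        |(tc q E x : ℝ) - ∫ u in (2 : ℝ)..x, n E u / Real.log u| ≤ C * x ^ (1 / 2 + ε)) ∧
      ∀ l : ℝ, 0 < l → ∀ k : ℕ,
        Tendsto (fun X : ℝ => volume.real {x : ℝ | 2 ≤ x ∧ x ≤ X ∧ cw q x (l * Real.log x) ≤ k} / X) atTop (𝓝 (Q k l))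

/-- from the distribution functions to the Poisson law -/
theorem poisson_of {q : ℕ → ℝ} (hq : StrictMono q) (hg : ∀ n : ℕ, (n : ℝ) + 1 ≤ q n)
    (h : ∀ l : ℝ, 0 < l → ∀ k : ℕ,
      Tendsto (fun X : ℝ => volume.real {x : ℝ | 2 ≤ x ∧ x ≤ X ∧ cw q x (l * Real.log x) ≤ k} / X) atTop (𝓝 (Q k l))) :
    PoissonLaw q := fun l hl k => Pool.Agent.H73.KP.single hq hg hl (fun k => h l hl k) k

/-- the system with prescribed zeros and laws -/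
theorem sys0P (hbase : S_baseP) {γ : ℕ → ℝ} (h0 : ∀ k, 0 < γ k) (hm : Monotone γ) (hW : Windows γ)
    {n : Finset ℕ → ℝ → ℝ} (hn : Laws n) :
    ∃ (q : ℕ → ℝ) (Z : ℂ → ℂ), RHSystem q Z ∧ HasZeros Z γ ∧ ExplicitFormula q γ ∧ PoissonLaw q ∧
      ∀ D : Finset ℕ, 0 ∈ D → 2 ≤ D.card → ∀ ε : ℝ, 0 < ε → ∃ C : ℝ, ∀ x : ℝ, 2 ≤ x →
        |(patternCount q D x : ℝ) - ∫ u in (2 : ℝ)..x, n D u / Real.log u| ≤ C * x ^ (1 / 2 + ε) := by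
  let _ : Dens := dens γ h0
  obtain ⟨a, S, q, hst, hD, hc, hlaw, hpoi⟩ := hbase h0 hm hW hn (fun _ => 0)
  have hq := hst.2.2.2
  obtain ⟨Z, hZ, hord⟩ := rh_of h0 hm hW hq.1 hq.2.2.1 hq.2.1 hD (smallErr_self hq.1 hq.2.1 hc)
  exact ⟨q, Z, hZ, hord, hc, poisson_of hq.1 hq.2.1 hpoi, hlaw⟩

/-- the system with prescribed zeros and constants -/
theorem syscP (hbase : S_baseP) {γ : ℕ → ℝ} (h0 : ∀ k, 0 < γ k) (hm : Monotone γ) (hW : Windows γ)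
    {c : Finset ℕ → ℝ} (hc : ∀ D, 0 ≤ c D)
    (hc0 : ∀ D D' : Finset ℕ, 0 ∈ D → 2 ≤ D.card → 0 ∈ D' → (∃ t, ∀ d ∈ D, t + d ∈ D') → c D = 0 → c D' = 0) :
    ∃ (q : ℕ → ℝ) (Z : ℂ → ℂ), RHSystem q Z ∧ HasZeros Z γ ∧ ExplicitFormula q γ ∧ Constellations q c ∧
      PoissonLaw q := by
  have hmt : ∀ {D D' : Finset ℕ}, Pool.Agent.H73.KT.mult D D' ≠ 0 → ∃ t, ∀ d ∈ D, t + d ∈ D' := by
    intro D D' h
    obtain ⟨t, _, h⟩ := Pool.Agent.H73.KT.mult_ne h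
    exact ⟨t, h⟩
  obtain ⟨q, Z, hZ, hord, hex, hpoi, hlaw⟩ := sys0P hbase h0 hm hW (Pool.Agent.H73.KT.nb_laws hc
    (fun D D' hD hD2 hD' hm => hc0 D D' hD hD2 hD' (hmt hm)) (Bad := fun _ => False) (fun _ _ _ h => h)
    (X := ∅) MeasurableSet.empty)
  refine ⟨q, Z, hZ, hord, hex, fun D hD hD2 ε hε => ?_, hpoi⟩
  obtain ⟨C, hC⟩ := hlaw D hD hD2 ε hε
  refine ⟨C, fun x hx => ?_⟩
  rw [← Pool.Agent.H73.KT.nb_int (Bad := fun _ => False) (X := ∅) hD2 (fun h => h) hx]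
  exact hC x hx

end Pool.Agent.H49.BZ
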